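import Pool.Agent.EOP7.A

set_option autoImplicit false

namespace Pool.Agent.EOP7

open SimpleGraph Finset

lemma sand {ι β : Type} [LinearOrder ι] [WellFoundedLT ι] [LinearOrder β] {x y z : ι → β}
    (hxy : toLex x ≤ toLex y) (hyz : toLex y ≤ toLex z) (u : ι) (h : ∀ j < u, x j = z j) :
    ∀ j < u, x j = y j := by
  intro j
  induction j using WellFoundedLT.induction with
  | _ j ih =>
  intro hj
  have a : ∀ k < j, x k = y k := fun k hk => ih k hk (hk.trans hj)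
  have b : ∀ k < j, y k = z k := fun k hk => (a k hk).symm.trans (h k (hk.trans hj))
  exact le_antisymm (Pi.apply_le_of_toLex hxy a) ((Pi.apply_le_of_toLex hyz b).trans (h j hj).ge)

abbrev Row (b m : ℕ) := Fin m × (Fin b → Fin (3 * m))
abbrev Col (b m : ℕ) := Lex (Fin b → Fin (2 * m)) ×ₗ Lex (Fin b → Fin 2)

def rel {b m : ℕ} (r : Row b m) (c : Col b m) : Prop :=
  ∀ u, (r.2 u : ℕ) = (ofLex (ofLex c).1 u : ℕ) + (r.1 + 1) * (ofLex (ofLex c).2 u : ℕ)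

def host (b m : ℕ) : SimpleGraph (Row b m ⊕ Col b m) where
  Adj x y := ∃ r c, rel r c ∧ ((x = .inl r ∧ y = .inr c) ∨ (x = .inr c ∧ y = .inl r))
  symm := ⟨fun x y ⟨r, c, h, k⟩ => ⟨r, c, h, by tauto⟩⟩
  loopless := ⟨fun x ⟨r, c, h, k⟩ => by rcases k with ⟨rfl, k⟩ | ⟨rfl, k⟩ <;> cases k⟩

noncomputable def κ {b m : ℕ} (c : Col b m) : ℕ := (monoEquivOfFin (Col b m) rfl).symm c

lemma κ_le {b m : ℕ} {c c' : Col b m} (h : κ c ≤ κ c') : c ≤ c' :=
  (monoEquivOfFin (Col b m) rfl).symm.le_iff_le.1 h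

noncomputable def wt {b m : ℕ} : Row b m ⊕ Col b m → ℕ :=
  Sum.elim (fun r => (r.1 : ℕ)) fun c => κ c * m

noncomputable def gl (b m : ℕ) : Sym2 (Row b m ⊕ Col b m) → ℕ :=
  Sym2.lift ⟨fun x y => wt x + wt y, fun _ _ => add_comm _ _⟩

lemma gl_rc {b m : ℕ} (r : Row b m) (c : Col b m) : gl b m s(.inl r, .inr c) = r.1 + κ c * m := rfl

lemma gl_cr {b m : ℕ} (r : Row b m) (c : Col b m) : gl b m s(.inr c, .inl r) = r.1 + κ c * m :=
  add_comm _ _

lemma col_le {b m : ℕ} {r r' : Row b m} {c c' : Col b m}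
    (h : (r.1 : ℕ) + κ c * m ≤ r'.1 + κ c' * m) : c ≤ c' := by
  refine κ_le ?_
  by_contra k
  have := Nat.mul_le_mul_right m (Nat.succ_le_of_lt (not_le.1 k))
  have := r'.1.2
  rw [Nat.succ_mul] at *
  omega

lemma gl_inj (b m : ℕ) : Set.InjOn (gl b m) (host b m).edgeSet := by
  have key : ∀ e ∈ (host b m).edgeSet, ∃ r c, rel r c ∧ e = s(.inl r, .inr c) := by
    intro e he
    induction e using Sym2.ind with
    | _ x y =>
    obtain ⟨r, c, h, ⟨rfl, rfl⟩ | ⟨rfl, rfl⟩⟩ := he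
    · exact ⟨r, c, h, rfl⟩
    · exact ⟨r, c, h, Sym2.eq_swap⟩
  intro e he f hf q
  obtain ⟨r, c, h, rfl⟩ := key e he
  obtain ⟨r', c', h', rfl⟩ := key f hf
  rw [gl_rc, gl_rc] at q
  obtain rfl : c = c' := le_antisymm (col_le q.le) (col_le q.ge)
  have e1 : r.1 = r'.1 := Fin.ext (by omega)
  obtain rfl : r = r' := Prod.ext e1 (funext fun u => Fin.ext (by rw [h u, h' u, e1]))
  rfl

lemma adj_l {b m : ℕ} {r : Row b m} {y} (h : (host b m).Adj (.inl r) y) :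
    ∃ c, y = .inr c ∧ rel r c := by
  obtain ⟨r', c, h, ⟨k, rfl⟩ | ⟨k, rfl⟩⟩ := h
  · cases k; exact ⟨c, rfl, h⟩
  · cases k

lemma adj_r {b m : ℕ} {c : Col b m} {y} (h : (host b m).Adj (.inr c) y) :
    ∃ r, y = .inl r ∧ rel r c := by
  obtain ⟨r, c', h, ⟨k, rfl⟩ | ⟨k, rfl⟩⟩ := h
  · cases k
  · cases k; exact ⟨r, rfl, h⟩

lemma core {b m : ℕ} {r1 r2 r3 : Row b m} {c1 c2 c3 c4 : Col b m} (a13 : rel r1 c3)
    (a11 : rel r1 c1) (a21 : rel r2 c1) (a24 : rel r2 c4) (a34 : rel r3 c4) (a32 : rel r3 c2)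
    (h12 : c1 ≤ c2) (h23 : c2 ≤ c3) (h34 : c3 ≤ c4) (hne : c1 ≠ c4) (s12 : (r1.1 : ℕ) < r2.1)
    (s23 : (r2.1 : ℕ) < r3.1) : False := by
  have k12 := Prod.Lex.monotone_fst _ _ h12
  have k23 := Prod.Lex.monotone_fst _ _ h23
  have k34 := Prod.Lex.monotone_fst _ _ h34
  have ne : (ofLex c1).1 ≠ (ofLex c4).1 := by
    intro e
    refine hne (Prod.ext e (funext fun u => Fin.ext ?_))
    have x := a21 u
    rw [a24 u, e] at x
    exact (Nat.eq_of_mul_eq_mul_left (Nat.succ_pos _) (Nat.add_left_cancel x)).symm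
  obtain ⟨u, hu, lt⟩ := lt_of_le_of_ne (k12.trans (k23.trans k34)) ne
  have t2 := sand (x := ofLex (ofLex c1).1) (y := ofLex (ofLex c2).1) (z := ofLex (ofLex c4).1)
    k12 (k23.trans k34) u hu
  have t3 := sand (x := ofLex (ofLex c1).1) (y := ofLex (ofLex c3).1) (z := ofLex (ofLex c4).1)
    (k12.trans k23) k34 u hu
  have l12 : (ofLex (ofLex c1).1 u : ℕ) ≤ ofLex (ofLex c2).1 u :=
    Pi.apply_le_of_toLex (x := ofLex (ofLex c1).1) (y := ofLex (ofLex c2).1) k12 t2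
  have l23 : (ofLex (ofLex c2).1 u : ℕ) ≤ ofLex (ofLex c3).1 u :=
    Pi.apply_le_of_toLex (x := ofLex (ofLex c2).1) (y := ofLex (ofLex c3).1) k23
      fun j hj => (t2 j hj).symm.trans (t3 j hj)
  have l34 : (ofLex (ofLex c3).1 u : ℕ) ≤ ofLex (ofLex c4).1 u :=
    Pi.apply_le_of_toLex (x := ofLex (ofLex c3).1) (y := ofLex (ofLex c4).1) k34
      fun j hj => (t3 j hj).symm.trans (hu j hj)
  have lt' : (ofLex (ofLex c1).1 u : ℕ) < ofLex (ofLex c4).1 u := lt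
  have b1 := a13 u
  have b2 := a11 u
  have b3 := a21 u
  have b4 := a24 u
  have b5 := a34 u
  have b6 := a32 u
  have i1 := (ofLex (ofLex c1).2 u).2
  have i2 := (ofLex (ofLex c2).2 u).2
  have i3 := (ofLex (ofLex c3).2 u).2
  have i4 := (ofLex (ofLex c4).2 u).2
  generalize (ofLex (ofLex c1).2 u : ℕ) = j1 at *
  generalize (ofLex (ofLex c2).2 u : ℕ) = j2 at *
  generalize (ofLex (ofLex c3).2 u : ℕ) = j3 at *
  generalize (ofLex (ofLex c4).2 u : ℕ) = j4 at *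
  interval_cases j1 <;> interval_cases j2 <;> interval_cases j3 <;> interval_cases j4 <;> omega

theorem not_has (b m : ℕ) : ¬ Has (host b m) (gl b m) := by
  rintro ⟨φ, hφ, ha, ho⟩
  have a0 := (ha 0 1 (by decide)).symm
  have a1 := ha 1 2 (by decide)
  have a2 := ha 2 3 (by decide)
  have a3 := ha 3 4 (by decide)
  have a4 := ha 4 5 (by decide)
  have a5 := ha 5 6 (by decide)
  have o1 := ho s(1, 2) (by decide) s(2, 3) (by decide) (by decide)
  have o2 := ho s(2, 3) (by decide) s(5, 6) (by decide) (by decide)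
  have o3 := ho s(5, 6) (by decide) s(1, 0) (by decide) (by decide)
  have o4 := ho s(1, 0) (by decide) s(3, 4) (by decide) (by decide)
  have o5 := ho s(3, 4) (by decide) s(4, 5) (by decide) (by decide)
  simp only [Sym2.map_mk] at o1 o2 o3 o4 o5
  have n13 : φ 1 ≠ φ 3 := hφ.ne (by decide)
  have n24 : φ 2 ≠ φ 4 := hφ.ne (by decide)
  generalize φ 0 = x0 at *
  generalize φ 1 = x1 at *
  generalize φ 2 = x2 at *
  generalize φ 3 = x3 at *
  generalize φ 4 = x4 at *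
  generalize φ 5 = x5 at *
  generalize φ 6 = x6 at *
  rcases x1 with r1 | c1
  · obtain ⟨c3, rfl, b0⟩ := adj_l a0
    obtain ⟨c1, rfl, b1⟩ := adj_l a1
    obtain ⟨r2, rfl, b2⟩ := adj_r a2
    obtain ⟨c4, rfl, b3⟩ := adj_l a3
    obtain ⟨r3, rfl, b4⟩ := adj_r a4
    obtain ⟨c2, rfl, b5⟩ := adj_l a5
    simp only [gl_rc, gl_cr] at o1 o2 o3 o4 o5
    exact core b0 b1 b2 b3 b4 b5 (col_le o2.le) (col_le o3.le) (col_le o4.le)
      (fun e => n24 (by rw [e])) (by omega) (by omega)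
  · obtain ⟨r0, rfl, b0⟩ := adj_r a0
    obtain ⟨r2, rfl, b1⟩ := adj_r a1
    obtain ⟨c3, rfl, b2⟩ := adj_l a2
    simp only [gl_rc, gl_cr] at o1 o2 o3
    rw [le_antisymm (col_le o1.le) (col_le (o2.trans o3).le)] at n13
    exact n13 rfl

lemma host_card (b m : ℕ) : m * ((2 * m) ^ b * 2 ^ b) ≤ (host b m).edgeSet.ncard := by
  classical
  let ψ : Fin m × Col b m → Row b m := fun p => (p.1, fun u =>
    ⟨(ofLex (ofLex p.2).1 u : ℕ) + (p.1 + 1) * (ofLex (ofLex p.2).2 u : ℕ), by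
      have := (ofLex (ofLex p.2).1 u).2
      have := p.1.2
      have := (ofLex (ofLex p.2).2 u).2
      nlinarith⟩)
  have := Set.ncard_le_ncard_of_injOn (s := Set.univ) (t := (host b m).edgeSet)
    (fun p => s(Sum.inl (ψ p), Sum.inr p.2))
    (fun p _ => ⟨ψ p, p.2, fun u => rfl, .inl ⟨rfl, rfl⟩⟩) (fun p _ q _ e => by
      simp only [Sym2.eq_iff, Sum.inl.injEq, Sum.inr.injEq, reduceCtorEq, and_self, or_false] at e
      exact Prod.ext (congrArg Prod.fst e.1 :) e.2)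
  rw [Set.ncard_univ, Nat.card_eq_fintype_card] at this
  simpa using this

lemma transport {V : Type} [Fintype V] (G : SimpleGraph V) (M : Sym2 V → ℕ)
    (hM : Set.InjOn M G.edgeSet) (h : ¬ Has G M) :
    ∃ (G' : SimpleGraph (Fin (Fintype.card V))) (M' : Sym2 (Fin (Fintype.card V)) → ℕ),
      Set.InjOn M' G'.edgeSet ∧ ¬ Has G' M' ∧ G'.edgeSet.ncard = G.edgeSet.ncard := by
  let e := (Fintype.equivFin V).symm
  refine ⟨G.comap e, fun x => M (Sym2.map e x), fun x hx y hy q => ?_, ?_, ?_⟩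
  · refine Sym2.map.injective e.injective (hM ?_ ?_ q)
    · induction x using Sym2.ind with
      | _ a b => exact hx
    · induction y using Sym2.ind with
      | _ a b => exact hy
  · rintro ⟨φ, h1, h2, h3⟩
    refine h ⟨e ∘ φ, e.injective.comp h1, h2, fun x hx y hy q => ?_⟩
    simpa only [Sym2.map_map] using h3 x hx y hy q
  · exact Nat.card_congr (Iso.comap e G).mapEdgeSet

theorem lower (C : ℝ) (c N : ℕ) : ∃ n : ℕ, N ≤ n ∧ 2 ≤ n ∧ ∃ (G : SimpleGraph (Fin n))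
    (M : Sym2 (Fin n) → ℕ), Set.InjOn M G.edgeSet ∧ ¬ Has G M ∧
      C * n * Real.log n ^ c < G.edgeSet.ncard := by
  have T := (tendsto_pow_const_div_const_pow_of_one_lt (2 * c) (r := 4 / 3) (by norm_num)).const_mul
    (2 * |C| * 5 ^ c)
  rw [mul_zero] at T
  obtain ⟨b, hb, hN⟩ := ((T.eventually (gt_mem_nhds one_pos)).and
    (Filter.eventually_ge_atTop (N + 2))).exists
  obtain ⟨G, M, h1, h2, h3⟩ := transport _ _ (gl_inj b (2 ^ b)) (not_has b (2 ^ b))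
  have hc := host_card b (2 ^ b)
  rw [← h3] at hc
  have e : Fintype.card (Row b (2 ^ b) ⊕ Col b (2 ^ b)) = (2 ^ b) ^ b * (6 ^ b + 4 ^ b) := by
    have : (6 : ℕ) ^ b = 2 ^ b * 3 ^ b := mul_pow 2 3 b
    have : (4 : ℕ) ^ b = 2 ^ b * 2 ^ b := mul_pow 2 2 b
    simp [mul_pow, *]
    ring
  have e' : 2 ^ b * ((2 * 2 ^ b) ^ b * 2 ^ b) = (2 ^ b) ^ b * 8 ^ b := by
    have : (8 : ℕ) ^ b = 2 ^ b * 2 ^ b * 2 ^ b := by rw [← mul_pow, ← mul_pow]; rfl
    rw [this, mul_pow]; ring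
  rw [e'] at hc
  have p46 : 4 ^ b ≤ 6 ^ b := Nat.pow_le_pow_left (by norm_num) b
  have p68 : 6 ^ b ≤ 2 ^ (3 * b) := by rw [pow_mul]; exact Nat.pow_le_pow_left (by norm_num) b
  have lo : b ≤ Fintype.card (Row b (2 ^ b) ⊕ Col b (2 ^ b)) := by
    rw [e]
    have : b < 4 ^ b := Nat.lt_pow_self (by norm_num)
    have : 0 < (2 ^ b) ^ b := by positivity
    nlinarith
  have hi : Fintype.card (Row b (2 ^ b) ⊕ Col b (2 ^ b)) ≤ (2 ^ b) ^ b * (2 * 6 ^ b) := by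
    rw [e]; exact Nat.mul_le_mul_left _ (by omega)
  have hi2 : Fintype.card (Row b (2 ^ b) ⊕ Col b (2 ^ b)) ≤ 2 ^ (5 * b ^ 2) := by
    refine hi.trans ((Nat.mul_le_mul_left _ (Nat.mul_le_mul_left 2 p68)).trans ?_)
    rw [← pow_mul, ← pow_succ', ← pow_add]
    exact Nat.pow_le_pow_right (by norm_num) (by nlinarith)
  refine ⟨_, by omega, by omega, G, M, h1, h2, ?_⟩
  generalize Fintype.card (Row b (2 ^ b) ⊕ Col b (2 ^ b)) = n at *
  have n1 : (1 : ℝ) ≤ n := by exact_mod_cast (by omega : 1 ≤ n)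
  have l0 : 0 ≤ Real.log n := Real.log_nonneg n1
  have l1 : Real.log n ≤ 5 * (b : ℝ) ^ 2 := by
    refine (Real.log_le_log (by positivity) (y := 2 ^ (5 * b ^ 2)) (by exact_mod_cast hi2)).trans ?_
    rw [Real.log_pow]
    push_cast
    have := Real.log_two_lt_d9
    exact mul_le_of_le_one_right (by positivity) (by linarith)
  have l2 : Real.log n ^ c ≤ 5 ^ c * (b : ℝ) ^ (2 * c) := by
    rw [pow_mul, ← mul_pow]; exact pow_le_pow_left₀ l0 l1 c
  have hi' : (n : ℝ) ≤ (2 ^ b) ^ b * (2 * 6 ^ b) := by exact_mod_cast hi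
  have hc' : (2 ^ b) ^ b * (8 : ℝ) ^ b ≤ G.edgeSet.ncard := by exact_mod_cast hc
  rw [← mul_div_assoc, div_lt_one (by positivity)] at hb
  have e8 : (8 : ℝ) ^ b = 6 ^ b * (4 / 3) ^ b := by rw [← mul_pow]; norm_num
  calc C * n * Real.log n ^ c ≤ |C| * n * Real.log n ^ c := by gcongr; exact le_abs_self C
    _ ≤ |C| * ((2 ^ b) ^ b * (2 * 6 ^ b)) * (5 ^ c * (b : ℝ) ^ (2 * c)) := by gcongr
    _ = (2 ^ b) ^ b * (6 ^ b * (2 * |C| * 5 ^ c * (b : ℝ) ^ (2 * c))) := by ring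
    _ < (2 ^ b) ^ b * 8 ^ b := by rw [e8]; gcongr
    _ ≤ _ := hc'

theorem bip : ∃ m : ℕ, ∃ H : SimpleGraph (Fin m), H.Colorable 2 ∧
    ∀ h : Sym2 (Fin m) → ℕ, Set.InjOn h H.edgeSet → Has H h := by
  obtain ⟨N, hN⟩ := upper' (1 / 8) (by norm_num)
  refine ⟨2 * (N + 1), turanGraph _ 2, ⟨Coloring.mk (fun v => ⟨v % 2, Nat.mod_lt _ two_pos⟩)
    fun h e => h (congrArg Fin.val e)⟩, fun h hh => ?_⟩
  by_contra k
  have := hN _ (by simp; omega) _ h hh k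
  rw [← coe_edgeFinset, Set.ncard_coe_finset, card_edgeFinset_turanGraph, Fintype.card_fin,
    Nat.mul_mod_right, show ((2 * (N + 1)) ^ 2 - 0 ^ 2) * (2 - 1) / (2 * 2) + Nat.choose 0 2 =
      (N + 1) ^ 2 by simp [mul_pow]] at this
  push_cast at this
  nlinarith [sq_nonneg (N : ℝ), (Nat.cast_nonneg N : (0 : ℝ) ≤ N)]

end Pool.Agent.EOP7
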